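import Mathlib

/-!
# Non-uniform lower bound for private anonymized histograms

Consider the staircase partition with `k = 2 h` steps and add a unit to `h` of the steps. These
partitions correspond to the `h`-subsets of a `2 h`-set, and exchanging one element goes through a
partition of size one less, so it changes the output probabilities by a factor of at most
`exp (2 ε)`. For a fixed output set `o` let `G j` be the total probability of the output `o` over
the inputs `b` with `|b \ o| = j`. Counting the exchanges which lead away from `o` gives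
`G j * (h - j) ^ 2 ≤ exp (2 ε) * (j + 1) ^ 2 * G (j + 1)`, so that most of the total probability
belongs to pairs with `|b \ o| ≥ c h / exp ε`.
-/

open MeasureTheory Finset
open scoped ENNReal

namespace Pool.Agent.Results.MP_c9d3d4_lc.NonUniformError

/-- The `ℓ¹` distance of two real sequences, possibly infinite. -/
noncomputable def l1dist (x y : ℕ → ℝ) : ℝ≥0∞ := ∑' i, ENNReal.ofReal |x i - y i|

/-- A finitely supported sequence of natural numbers as a sequence of reals. -/
def toSeq (p : ℕ →₀ ℕ) : ℕ → ℝ := fun i => (p i : ℝ)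

/-- The integer partitions of size exactly `n`: nonincreasing finitely supported sequences of
natural numbers with sum `n`. -/
def Parts (n : ℕ) : Set (ℕ →₀ ℕ) := {p | Antitone p ∧ (p.sum fun _ a => a) = n}

/-- The integer partitions of size at most `n`. -/
def PartsLE (n : ℕ) : Set (ℕ →₀ ℕ) := {p | ∃ m ≤ n, p ∈ Parts m}

/-- `A` is an `ε`-differentially private algorithm on the partitions of size at most `n`: for
every such partition `p`, `A p` is a probability distribution on real sequences, and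
`A p S ≤ exp ε * A p' S` for all neighbours `p`, `p'` and every measurable set `S`. -/
structure IsDP (ε : ℝ) (n : ℕ) (A : (ℕ →₀ ℕ) → Measure (ℕ → ℝ)) : Prop where
  prob : ∀ p ∈ PartsLE n, IsProbabilityMeasure (A p)
  dp : ∀ p ∈ PartsLE n, ∀ p' ∈ PartsLE n, l1dist (toSeq p) (toSeq p') ≤ 1 →
    ∀ S : Set (ℕ → ℝ), MeasurableSet S → A p S ≤ ENNReal.ofReal (Real.exp ε) * A p' S

/-- The error of `A` on the input `p`: the expected `ℓ¹` distance of the output from `p`. -/
noncomputable def err (A : (ℕ →₀ ℕ) → Measure (ℕ → ℝ)) (p : ℕ →₀ ℕ) : ℝ≥0∞ :=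
  ∫⁻ x, l1dist x (toSeq p) ∂(A p)

/-! ### The combinatorial estimate -/

/-- Exchanges leading away from `o`. -/
lemma exchange {h j : ℕ} {q : ℝ} (o : Finset ℕ) (ho : o ∈ (range (2 * h)).powersetCard h)
    (P : Finset ℕ → ℝ)
    (hP : ∀ b ∈ (range (2 * h)).powersetCard h, ∀ x ∈ b, ∀ y ∈ range (2 * h) \ b,
      P b ≤ q * P (insert y (b.erase x))) :
    (∑ b ∈ ((range (2 * h)).powersetCard h).filter (fun b => (b \ o).card = j), P b) *
        ((h - j : ℕ) : ℝ) ^ 2 ≤
      q * ((∑ b ∈ ((range (2 * h)).powersetCard h).filter (fun b => (b \ o).card = j + 1), P b) *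
        ((j + 1 : ℕ) : ℝ) ^ 2) := by
  classical
  rw [mem_powersetCard] at ho
  obtain ⟨ho1, ho2⟩ := ho
  set B := (range (2 * h)).powersetCard h with hB
  have hcard1 : ∀ b ∈ B.filter (fun b => (b \ o).card = j),
      ((b ∩ o) ×ˢ (range (2 * h) \ (b ∪ o))).card = (h - j) ^ 2 := by
    intro b hb
    rw [mem_filter, hB, mem_powersetCard] at hb
    obtain ⟨⟨hb1, hb2⟩, hb3⟩ := hb
    have h1 : (b ∩ o).card = h - j := by
      have := card_sdiff_add_card_inter b o
      omega
    have h2 : (b ∪ o).card = h + j := by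
      have h3 := card_sdiff_add_card b o
      omega
    rw [card_product, card_sdiff_of_subset (union_subset hb1 ho1), card_range, h1, h2, sq]
    congr 1
    omega
  have hcard2 : ∀ b ∈ B.filter (fun b => (b \ o).card = j + 1),
      ((o \ b) ×ˢ (b \ o)).card = (j + 1) ^ 2 := by
    intro b hb
    rw [mem_filter, hB, mem_powersetCard] at hb
    obtain ⟨⟨hb1, hb2⟩, hb3⟩ := hb
    have h1 : (o \ b).card = (b \ o).card := card_sdiff_comm (by rw [ho2, hb2])
    rw [card_product, h1, hb3, sq]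
  have h1 : (∑ b ∈ B.filter (fun b => (b \ o).card = j), P b) * ((h - j : ℕ) : ℝ) ^ 2 =
      ∑ b ∈ B.filter (fun b => (b \ o).card = j),
        ∑ _z ∈ (b ∩ o) ×ˢ (range (2 * h) \ (b ∪ o)), P b := by
    rw [sum_mul]
    refine sum_congr rfl fun b hb => ?_
    rw [sum_const, hcard1 b hb, nsmul_eq_mul, Nat.cast_pow]
    ring
  have h2 : (∑ b ∈ B.filter (fun b => (b \ o).card = j + 1), P b) * ((j + 1 : ℕ) : ℝ) ^ 2 =
      ∑ b ∈ B.filter (fun b => (b \ o).card = j + 1), ∑ _z ∈ (o \ b) ×ˢ (b \ o), P b := by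
    rw [sum_mul]
    refine sum_congr rfl fun b hb => ?_
    rw [sum_const, hcard2 b hb, nsmul_eq_mul, Nat.cast_pow]
    ring
  rw [h1, h2, mul_sum, sum_sigma', ← mul_sum, sum_sigma', mul_sum]
  have h3 : ∑ s ∈ (B.filter (fun b => (b \ o).card = j)).sigma
        (fun b => (b ∩ o) ×ˢ (range (2 * h) \ (b ∪ o))), P s.1 ≤
      ∑ s ∈ (B.filter (fun b => (b \ o).card = j)).sigma
        (fun b => (b ∩ o) ×ˢ (range (2 * h) \ (b ∪ o))),
          q * P (insert s.2.2 (s.1.erase s.2.1)) := by
    refine sum_le_sum fun s hs => ?_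
    rw [mem_sigma, mem_filter, mem_product, mem_inter, mem_sdiff, mem_union] at hs
    obtain ⟨⟨hs1, -⟩, ⟨hs2, -⟩, hs3, hs4⟩ := hs
    exact hP s.1 hs1 s.2.1 hs2 s.2.2 (by
      rw [mem_sdiff]
      exact ⟨hs3, fun hh => hs4 (Or.inl hh)⟩)
  refine h3.trans (le_of_eq ?_)
  refine sum_bij' (fun s _ => ⟨insert s.2.2 (s.1.erase s.2.1), (s.2.1, s.2.2)⟩)
    (fun s _ => ⟨insert s.2.1 (s.1.erase s.2.2), (s.2.1, s.2.2)⟩) ?_ ?_ ?_ ?_ ?_
  · rintro ⟨b, x, y⟩ hs
    simp only [mem_sigma, mem_filter, mem_product, mem_inter, mem_sdiff, mem_union, not_or] at hs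
    obtain ⟨⟨hs1, hs0⟩, ⟨hs2, hs2'⟩, hs3, hs4, hs5⟩ := hs
    rw [hB, mem_powersetCard] at hs1
    have hxy : x ≠ y := by
      rintro rfl
      exact hs4 hs2
    have hy : y ∉ b.erase x := fun hh => hs4 (mem_of_mem_erase hh)
    simp only [mem_sigma, mem_filter, mem_product, mem_sdiff, hB, mem_powersetCard]
    refine ⟨⟨⟨?_, ?_⟩, ?_⟩, ⟨hs2', ?_⟩, mem_insert_self _ _, hs5⟩
    · rw [insert_subset_iff]
      exact ⟨hs3, (erase_subset _ _).trans hs1.1⟩
    · rw [card_insert_of_notMem hy, card_erase_of_mem hs2, hs1.2]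
      have : 0 < b.card := card_pos.2 ⟨x, hs2⟩
      omega
    · have h5 : insert y (b.erase x) \ o = insert y (b \ o) := by
        ext z
        simp only [mem_sdiff, mem_insert, mem_erase]
        constructor
        · rintro ⟨rfl | ⟨-, h6⟩, h7⟩
          · exact Or.inl rfl
          · exact Or.inr ⟨h6, h7⟩
        · rintro (rfl | ⟨h6, h7⟩)
          · exact ⟨Or.inl rfl, hs5⟩
          · refine ⟨Or.inr ⟨?_, h6⟩, h7⟩
            rintro rfl
            exact h7 hs2'
      rw [h5, card_insert_of_notMem, hs0]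
      rw [mem_sdiff]
      exact fun hh => hs4 hh.1
    · rw [mem_insert, mem_erase]
      rintro (h6 | h6)
      · exact hxy h6
      · exact h6.1 rfl
  · rintro ⟨b, x, y⟩ hs
    simp only [mem_sigma, mem_filter, mem_product, mem_sdiff] at hs
    obtain ⟨⟨hs1, hs0⟩, ⟨hs2, hs2'⟩, hs3, hs4⟩ := hs
    rw [hB, mem_powersetCard] at hs1
    have hxy : x ≠ y := by
      rintro rfl
      exact hs4 hs2
    have hx : x ∉ b.erase y := fun hh => hs2' (mem_of_mem_erase hh)
    simp only [mem_sigma, mem_filter, mem_product, mem_sdiff, hB, mem_powersetCard, mem_inter,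
      mem_union, not_or]
    refine ⟨⟨⟨?_, ?_⟩, ?_⟩, ⟨mem_insert_self _ _, hs2⟩, hs1.1 hs3, ?_, hs4⟩
    · rw [insert_subset_iff]
      exact ⟨ho1 hs2, (erase_subset _ _).trans hs1.1⟩
    · rw [card_insert_of_notMem hx, card_erase_of_mem hs3, hs1.2]
      have : 0 < b.card := card_pos.2 ⟨y, hs3⟩
      omega
    · have h5 : insert x (b.erase y) \ o = (b \ o).erase y := by
        ext z
        simp only [mem_sdiff, mem_insert, mem_erase]
        constructor
        · rintro ⟨rfl | ⟨h6, h7⟩, h8⟩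
          · exact absurd hs2 h8
          · exact ⟨h6, h7, h8⟩
        · rintro ⟨h6, h7, h8⟩
          exact ⟨Or.inr ⟨h6, h7⟩, h8⟩
      rw [h5, card_erase_of_mem, hs0]
      · rfl
      · rw [mem_sdiff]
        exact ⟨hs3, hs4⟩
    · rw [mem_insert, mem_erase]
      rintro (h6 | h6)
      · exact hxy h6.symm
      · exact h6.1 rfl
  · rintro ⟨b, x, y⟩ hs
    simp only [mem_sigma, mem_filter, mem_product, mem_inter, mem_sdiff, mem_union, not_or] at hs
    obtain ⟨⟨hs1, hs0⟩, ⟨hs2, hs2'⟩, hs3, hs4, hs5⟩ := hs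
    have hy : y ∉ b.erase x := fun hh => hs4 (mem_of_mem_erase hh)
    simp only [erase_insert hy, insert_erase hs2]
  · rintro ⟨b, x, y⟩ hs
    simp only [mem_sigma, mem_filter, mem_product, mem_sdiff] at hs
    obtain ⟨⟨hs1, hs0⟩, ⟨hs2, hs2'⟩, hs3, hs4⟩ := hs
    have hx : x ∉ b.erase y := fun hh => hs2' (mem_of_mem_erase hh)
    simp only [erase_insert hx, insert_erase hs3]
  · rintro ⟨b, x, y⟩ hs
    rfl

/-- A sequence which at least doubles up to `J` has at most half of its sum before `J`. -/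
lemma half {G : ℕ → ℝ} (h0 : ∀ j, 0 ≤ G j) {J : ℕ} (hG : ∀ j < J, 2 * G j ≤ G (j + 1)) :
    ∑ j ∈ range J, G j ≤ G J := by
  induction J with
  | zero => simpa using h0 0
  | succ J ih =>
    rw [sum_range_succ]
    have h1 := ih fun j hj => hG j (hj.trans (Nat.lt_succ_self _))
    have h2 := hG J (Nat.lt_succ_self _)
    linarith

/-- The average of `|b \ o|` is at least `J / 2`. -/
lemma average {h J : ℕ} {q : ℝ} (hq : 0 < q) (hJh : J ≤ h)
    (hJ : ∀ j < J, 2 * (q * ((j + 1 : ℕ) : ℝ) ^ 2) ≤ ((h - j : ℕ) : ℝ) ^ 2)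
    (P : Finset ℕ → Finset ℕ → ℝ) (hP0 : ∀ b o, 0 ≤ P b o)
    (hP1 : ∀ b ∈ (range (2 * h)).powersetCard h, ∑ o ∈ (range (2 * h)).powersetCard h, P b o = 1)
    (hP : ∀ b ∈ (range (2 * h)).powersetCard h, ∀ x ∈ b, ∀ y ∈ range (2 * h) \ b, ∀ o,
      P b o ≤ q * P (insert y (b.erase x)) o) :
    ∃ b ∈ (range (2 * h)).powersetCard h,
      (J : ℝ) / 2 ≤ ∑ o ∈ (range (2 * h)).powersetCard h, P b o * ((b \ o).card : ℝ) := by
  classical
  set B := (range (2 * h)).powersetCard h with hB
  have hBne : B.Nonempty := by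
    rw [hB, powersetCard_nonempty, card_range]
    omega
  -- for each output set
  have key : ∀ o ∈ B, (J : ℝ) / 2 * ∑ b ∈ B, P b o ≤ ∑ b ∈ B, P b o * ((b \ o).card : ℝ) := by
    intro o ho
    set G : ℕ → ℝ := fun j => ∑ b ∈ B.filter (fun b => (b \ o).card = j), P b o with hGdef
    have hG0 : ∀ j, 0 ≤ G j := fun j => sum_nonneg fun b _ => hP0 b o
    have hGd : ∀ j < J, 2 * G j ≤ G (j + 1) := by
      intro j hj
      have h1 := exchange (j := j) (q := q) o ho (fun b => P b o)
        (fun b hb x hx y hy => hP b hb x hx y hy o)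
      have h2 := hJ j hj
      have h3 : (0 : ℝ) < q * ((j + 1 : ℕ) : ℝ) ^ 2 := by positivity
      have h4 : G j * ((h - j : ℕ) : ℝ) ^ 2 ≤ G (j + 1) * (q * ((j + 1 : ℕ) : ℝ) ^ 2) := by
        refine h1.trans (le_of_eq ?_)
        simp only [hGdef, hB]
        ring
      have h5 : G j * (2 * (q * ((j + 1 : ℕ) : ℝ) ^ 2)) ≤
          G (j + 1) * (q * ((j + 1 : ℕ) : ℝ) ^ 2) :=
        (mul_le_mul_of_nonneg_left h2 (hG0 j)).trans h4
      have h6 : (2 * G j) * (q * ((j + 1 : ℕ) : ℝ) ^ 2) ≤
          G (j + 1) * (q * ((j + 1 : ℕ) : ℝ) ^ 2) := by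
        refine le_trans (le_of_eq ?_) h5
        ring
      exact le_of_mul_le_mul_right h6 h3
    have hmaps : ∀ b ∈ B, (b \ o).card ∈ range (h + 1) := by
      intro b hb
      rw [hB, mem_powersetCard] at hb
      rw [mem_range, Nat.lt_succ_iff, ← hb.2]
      exact card_le_card sdiff_subset
    have hsum1 : ∑ b ∈ B, P b o = ∑ j ∈ range (h + 1), G j := by
      rw [hGdef]
      exact (sum_fiberwise_of_maps_to hmaps _).symm
    have hsum2 : ∑ b ∈ B, P b o * ((b \ o).card : ℝ) = ∑ j ∈ range (h + 1), G j * j := by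
      rw [← sum_fiberwise_of_maps_to hmaps]
      refine sum_congr rfl fun j _ => ?_
      rw [hGdef, sum_mul]
      refine sum_congr rfl fun b hb => ?_
      rw [(mem_filter.1 hb).2]
    have hsplit : ∑ j ∈ range (h + 1), G j = ∑ j ∈ range J, G j + ∑ j ∈ Ico J (h + 1), G j := by
      rw [sum_range_add_sum_Ico _ (by omega)]
    have hhalf := half hG0 hGd
    have hJle : G J ≤ ∑ j ∈ Ico J (h + 1), G j :=
      single_le_sum (f := G) (fun j _ => hG0 j) (by rw [mem_Ico]; omega)
    have hlow : (J : ℝ) * ∑ j ∈ Ico J (h + 1), G j ≤ ∑ j ∈ range (h + 1), G j * j := by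
      rw [mul_sum]
      have h7 : ∑ j ∈ Ico J (h + 1), (J : ℝ) * G j ≤ ∑ j ∈ Ico J (h + 1), G j * j := by
        refine sum_le_sum fun j hj => ?_
        rw [mem_Ico] at hj
        have : (J : ℝ) ≤ j := by exact_mod_cast hj.1
        nlinarith [hG0 j]
      refine h7.trans ?_
      refine sum_le_sum_of_subset_of_nonneg ?_ fun j _ _ => mul_nonneg (hG0 j) (Nat.cast_nonneg _)
      intro j hj
      rw [mem_Ico] at hj
      rw [mem_range]
      exact hj.2
    rw [hsum1, hsum2]
    have hJ0 : (0 : ℝ) ≤ J := Nat.cast_nonneg _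
    nlinarith
  -- average over the inputs
  by_contra hcon
  push Not at hcon
  have h1 : ∑ b ∈ B, ∑ o ∈ B, P b o * ((b \ o).card : ℝ) < ∑ _b ∈ B, (J : ℝ) / 2 :=
    sum_lt_sum_of_nonempty hBne hcon
  rw [sum_comm] at h1
  have h2 : ∑ o ∈ B, (J : ℝ) / 2 * ∑ b ∈ B, P b o ≤
      ∑ o ∈ B, ∑ b ∈ B, P b o * ((b \ o).card : ℝ) := sum_le_sum key
  rw [← mul_sum, sum_comm, sum_congr rfl hP1] at h2
  rw [sum_const, nsmul_eq_mul] at h1
  rw [sum_const, nsmul_eq_mul, mul_one] at h2
  linarith

/-! ### The partitions -/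

/-- The values of the staircase with `k` steps below a first part `L`, with a unit added to the
steps in `b`. -/
def vals (k L : ℕ) (b : Finset ℕ) (i : ℕ) : ℕ :=
  if i = 0 then L else if i ≤ k then (k - i) + (if i - 1 ∈ b then 1 else 0) else 0

/-- The staircase with `k` steps below a first part `L`, with a unit added to the steps in
`b`. -/
noncomputable def part (k L : ℕ) (b : Finset ℕ) : ℕ →₀ ℕ :=
  Finsupp.onFinset (range (k + 1)) (vals k L b) (by
    intro i hi
    rw [mem_range]
    by_contra hcon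
    apply hi
    unfold vals
    rw [if_neg (by omega), if_neg (by omega)])

lemma part_apply (k L : ℕ) (b : Finset ℕ) (i : ℕ) : part k L b i = vals k L b i := rfl

lemma vals_zero (k L : ℕ) (b : Finset ℕ) : vals k L b 0 = L := by simp [vals]

lemma vals_succ {k L : ℕ} {b : Finset ℕ} {i : ℕ} (hi : i < k) :
    vals k L b (i + 1) = (k - (i + 1)) + (if i ∈ b then 1 else 0) := by
  unfold vals
  rw [if_neg (by omega), if_pos (by omega), Nat.add_sub_cancel]

lemma vals_gt {k L : ℕ} {b : Finset ℕ} {i : ℕ} (hi : k ≤ i) : vals k L b (i + 1) = 0 := by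
  unfold vals
  rw [if_neg (by omega), if_neg (by omega)]

lemma part_antitone {k L : ℕ} (hL : k ≤ L) (b : Finset ℕ) : Antitone (part k L b) := by
  refine antitone_nat_of_succ_le fun i => ?_
  rw [part_apply, part_apply]
  rcases Nat.eq_zero_or_pos i with rfl | hi
  · rw [vals_zero]
    rcases Nat.lt_or_ge 0 k with h | h
    · rw [vals_succ h]
      split_ifs <;> omega
    · rw [vals_gt h]
      exact Nat.zero_le _
  · obtain ⟨i, rfl⟩ : ∃ l, i = l + 1 := ⟨i - 1, by omega⟩
    rcases Nat.lt_or_ge (i + 1) k with h | h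
    · rw [vals_succ h, vals_succ (by omega : i < k)]
      split_ifs <;> omega
    · rw [vals_gt h]
      exact Nat.zero_le _

lemma part_sum {k L : ℕ} {b : Finset ℕ} (hb : b ⊆ range k) :
    ((part k L b).sum fun _ a => a) = L + k * (k - 1) / 2 + b.card := by
  unfold part
  rw [Finsupp.onFinset_sum _ (fun _ => rfl), sum_range_succ']
  rw [vals_zero]
  have h1 : ∑ i ∈ range k, vals k L b (i + 1) =
      ∑ i ∈ range k, ((k - 1 - i) + (if i ∈ b then 1 else 0)) := by
    refine sum_congr rfl fun i hi => ?_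
    rw [mem_range] at hi
    rw [vals_succ hi]
    congr 1
    omega
  rw [h1, sum_add_distrib, sum_range_reflect (fun i => i) k, sum_range_id]
  have h2 : ∑ i ∈ range k, (if i ∈ b then 1 else 0) = b.card := by
    rw [← sum_filter, sum_const, smul_eq_mul, mul_one]
    congr 1
    ext i
    rw [mem_filter]
    exact ⟨fun h => h.2, fun h => ⟨hb h, h⟩⟩
  rw [h2]
  ring

lemma l1_erase_le {k L : ℕ} {b : Finset ℕ} (hb : b ⊆ range k) {x : ℕ} (hx : x ∈ b) :
    l1dist (toSeq (part k L b)) (toSeq (part k L (b.erase x))) ≤ 1 := by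
  unfold l1dist
  rw [tsum_eq_single (x + 1)]
  · have hxk : x < k := mem_range.1 (hb hx)
    unfold toSeq
    rw [part_apply, part_apply, vals_succ hxk, vals_succ hxk, if_pos hx,
      if_neg (notMem_erase x b)]
    simp
  · intro i hi
    unfold toSeq
    rw [part_apply, part_apply]
    have : vals k L b i = vals k L (b.erase x) i := by
      rcases Nat.eq_zero_or_pos i with rfl | hi0
      · rw [vals_zero, vals_zero]
      · obtain ⟨i, rfl⟩ : ∃ l, i = l + 1 := ⟨i - 1, by omega⟩
        rcases Nat.lt_or_ge i k with h | h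
        · rw [vals_succ h, vals_succ h]
          congr 1
          have hix : i ≠ x := fun hh => hi (by rw [hh])
          simp [mem_erase, hix]
        · rw [vals_gt h, vals_gt h]
    rw [this]
    simp

lemma l1dist_comm (x y : ℕ → ℝ) : l1dist x y = l1dist y x := by
  unfold l1dist
  congr 1
  ext i
  rw [abs_sub_comm]

lemma l1dist_triangle (x y z : ℕ → ℝ) : l1dist y z ≤ l1dist x y + l1dist x z := by
  unfold l1dist
  rw [← ENNReal.tsum_add]
  refine ENNReal.tsum_le_tsum fun i => ?_
  rw [← ENNReal.ofReal_add (abs_nonneg _) (abs_nonneg _)]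
  refine ENNReal.ofReal_le_ofReal ?_
  calc |y i - z i| = |-(x i - y i) + (x i - z i)| := by ring_nf
    _ ≤ |-(x i - y i)| + |x i - z i| := abs_add_le _ _
    _ = |x i - y i| + |x i - z i| := by rw [abs_neg]

lemma le_l1dist_part {k L : ℕ} {b o : Finset ℕ} (hb : b ⊆ range k) (ho : o ⊆ range k)
    (hbo : b.card = o.card) :
    2 * ((b \ o).card : ℝ≥0∞) ≤ l1dist (toSeq (part k L o)) (toSeq (part k L b)) := by
  classical
  unfold l1dist
  have hinj : Set.InjOn (fun i : ℕ => i + 1) (symmDiff b o : Finset ℕ) :=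
    fun a _ c _ h => Nat.succ_injective h
  have h1 := ENNReal.sum_le_tsum (f := fun i => ENNReal.ofReal
    |toSeq (part k L o) i - toSeq (part k L b) i|) ((symmDiff b o).image (fun i => i + 1))
  refine le_trans (le_of_eq ?_) h1
  rw [sum_image hinj]
  have h2 : ∀ i ∈ symmDiff b o, ENNReal.ofReal
      |toSeq (part k L o) (i + 1) - toSeq (part k L b) (i + 1)| = 1 := by
    intro i hi
    have hik : i < k := by
      rw [mem_symmDiff] at hi
      rcases hi with hi | hi
      · exact mem_range.1 (hb hi.1)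
      · exact mem_range.1 (ho hi.1)
    unfold toSeq
    rw [part_apply, part_apply, vals_succ hik, vals_succ hik]
    rw [mem_symmDiff] at hi
    rcases hi with hi | hi
    · rw [if_pos hi.1, if_neg hi.2]
      push_cast
      simp
    · rw [if_pos hi.1, if_neg hi.2]
      push_cast
      simp
  rw [sum_congr rfl h2, sum_const, nsmul_eq_mul, mul_one]
  have h3 : (symmDiff b o).card = 2 * (b \ o).card := by
    have h4 : symmDiff b o = (b \ o) ∪ (o \ b) := rfl
    rw [h4, card_union_of_disjoint disjoint_sdiff_sdiff, card_sdiff_comm hbo.symm]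
    ring
  rw [h3]
  push_cast
  rfl

lemma measurable_l1dist (y : ℕ → ℝ) : Measurable fun x : ℕ → ℝ => l1dist x y := by
  unfold l1dist
  refine Measurable.tsum fun i => ?_
  exact (((measurable_pi_apply i).sub_const _).norm).ennreal_ofReal

/-! ### Rounding to the nearest of finitely many points -/

section Rounding

variable (B : Finset (Finset ℕ)) (pt : Finset ℕ → ℕ → ℝ)

/-- The sequences to which `pt o` is nearest among the points of `B`. -/
def Near (o : Finset ℕ) : Set (ℕ → ℝ) := {x | ∀ b ∈ B, l1dist x (pt o) ≤ l1dist x (pt b)}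

lemma measurableSet_near (o : Finset ℕ) : MeasurableSet (Near B pt o) := by
  have : Near B pt o = ⋂ b ∈ B, {x | l1dist x (pt o) ≤ l1dist x (pt b)} := by
    ext x
    simp [Near]
  rw [this]
  exact Finset.measurableSet_biInter _ fun b _ =>
    measurableSet_le (measurable_l1dist _) (measurable_l1dist _)

/-- The weight of `o` for the sequence `x`: equal weights for all nearest points. -/
noncomputable def wt (o : Finset ℕ) (x : ℕ → ℝ) : ℝ≥0∞ :=
  (Near B pt o).indicator 1 x / ∑ b ∈ B, (Near B pt b).indicator 1 x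

lemma measurable_wt (o : Finset ℕ) : Measurable (wt B pt o) := by
  unfold wt
  refine Measurable.div ?_ ?_
  · exact measurable_one.indicator (measurableSet_near B pt o)
  · exact Finset.measurable_sum _ fun b _ =>
      measurable_one.indicator (measurableSet_near B pt b)

lemma sum_wt (hB : B.Nonempty) (x : ℕ → ℝ) : ∑ o ∈ B, wt B pt o x = 1 := by
  unfold wt
  simp only [div_eq_mul_inv]
  rw [← sum_mul]
  refine ENNReal.mul_inv_cancel ?_ ?_
  · obtain ⟨o, ho, hmin⟩ := exists_min_image B (fun o => l1dist x (pt o)) hB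
    intro h0
    rw [sum_eq_zero_iff] at h0
    have h1 := h0 o ho
    rw [Set.indicator_of_mem (show x ∈ Near B pt o from hmin)] at h1
    simp at h1
  · rw [ENNReal.sum_ne_top]
    intro b _
    by_cases hx : x ∈ Near B pt b
    · rw [Set.indicator_of_mem hx]
      simp
    · rw [Set.indicator_of_notMem hx]
      simp

lemma wt_mul_le (o b : Finset ℕ) (hb : b ∈ B) (x : ℕ → ℝ) :
    wt B pt o x * l1dist (pt o) (pt b) ≤ wt B pt o x * (2 * l1dist x (pt b)) := by
  by_cases hx : x ∈ Near B pt o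
  · refine mul_le_mul_right ?_ _
    refine (l1dist_triangle x (pt o) (pt b)).trans ?_
    rw [two_mul]
    exact add_le_add (hx b hb) le_rfl
  · unfold wt
    rw [Set.indicator_of_notMem hx]
    simp

end Rounding

/-! ### The lower bound -/

lemma exists_err {ε : ℝ} {n h J : ℕ} {A : (ℕ →₀ ℕ) → Measure (ℕ → ℝ)} (hA : IsDP ε n A)
    (hn : 2 * h ^ 2 + 2 * h ≤ n) (hJh : J ≤ h)
    (hJ : ∀ j < J, 2 * (Real.exp (2 * ε) * ((j + 1 : ℕ) : ℝ) ^ 2) ≤ ((h - j : ℕ) : ℝ) ^ 2) :
    ∃ p ∈ Parts n, ENNReal.ofReal ((J : ℝ) / 2) ≤ err A p := by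
  classical
  set k := 2 * h with hk
  set L := n - k * (k - 1) / 2 - h with hL
  have hkk : k * (k - 1) / 2 + h = 2 * h ^ 2 := by
    rcases Nat.eq_zero_or_pos h with rfl | hpos
    · simp [hk]
    · have h1 : k * (k - 1) = 2 * (h * (2 * h - 1)) := by rw [hk]; ring
      rw [h1, Nat.mul_div_cancel_left _ (by norm_num)]
      have h2 : h * (2 * h - 1) + h = h * (2 * h) := by
        rw [← Nat.mul_succ]
        congr 1
        omega
      rw [h2]
      ring
  have hLk : k ≤ L := by omega
  have hsize : ∀ b : Finset ℕ, b ⊆ range k → b.card ≤ h →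
      part k L b ∈ Parts (n - h + b.card) := by
    intro b hb hbc
    refine ⟨part_antitone hLk b, ?_⟩
    rw [part_sum hb]
    omega
  set B := (range k).powersetCard h with hB
  have hBne : B.Nonempty := by
    rw [hB, powersetCard_nonempty, card_range]
    omega
  have hparts : ∀ b ∈ B, part k L b ∈ Parts n := by
    intro b hb
    rw [hB, mem_powersetCard] at hb
    have := hsize b hb.1 hb.2.le
    rwa [hb.2, Nat.sub_add_cancel (by nlinarith)] at this
  have hpartsLE : ∀ b ⊆ range k, b.card ≤ h → part k L b ∈ PartsLE n := by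
    intro b hb hbc
    exact ⟨_, by omega, hsize b hb hbc⟩
  -- the measures of exchanged inputs
  have hmeas : ∀ b ∈ B, ∀ x ∈ b, ∀ y ∈ range k \ b,
      A (part k L b) ≤
        ENNReal.ofReal (Real.exp (2 * ε)) • A (part k L (insert y (b.erase x))) := by
    intro b hb x hx y hy
    rw [hB, mem_powersetCard] at hb
    rw [mem_sdiff] at hy
    have hxy : x ≠ y := by
      rintro rfl
      exact hy.2 hx
    have hye : y ∉ b.erase x := fun hh => hy.2 (mem_of_mem_erase hh)
    have hbpos : 0 < b.card := card_pos.2 ⟨x, hx⟩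
    have he1 : (b.erase x).card = h - 1 := by rw [card_erase_of_mem hx, hb.2]
    have hsub : b.erase x ⊆ range k := (erase_subset _ _).trans hb.1
    have hsub2 : insert y (b.erase x) ⊆ range k := by
      rw [insert_subset_iff]
      exact ⟨hy.1, hsub⟩
    have hcard2 : (insert y (b.erase x)).card = h := by
      rw [card_insert_of_notMem hye, he1]
      omega
    rw [Measure.le_iff]
    intro S hS
    rw [Measure.smul_apply, smul_eq_mul]
    have h1 := hA.dp _ (hpartsLE b hb.1 hb.2.le) _ (hpartsLE (b.erase x) hsub (by omega))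
      (l1_erase_le hb.1 hx) S hS
    have h2 := hA.dp _ (hpartsLE (b.erase x) hsub (by omega)) _
      (hpartsLE (insert y (b.erase x)) hsub2 hcard2.le)
      (by
        rw [l1dist_comm]
        have h3 := l1_erase_le (L := L) hsub2 (mem_insert_self y (b.erase x))
        rwa [erase_insert hye] at h3) S hS
    calc A (part k L b) S ≤ ENNReal.ofReal (Real.exp ε) * A (part k L (b.erase x)) S := h1
      _ ≤ ENNReal.ofReal (Real.exp ε) *
          (ENNReal.ofReal (Real.exp ε) * A (part k L (insert y (b.erase x))) S) := by gcongr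
      _ = ENNReal.ofReal (Real.exp (2 * ε)) * A (part k L (insert y (b.erase x))) S := by
        rw [← mul_assoc, ← ENNReal.ofReal_mul (Real.exp_pos _).le, ← Real.exp_add, two_mul]
  -- the rounded outputs
  set pt : Finset ℕ → ℕ → ℝ := fun b => toSeq (part k L b) with hpt
  set Q : Finset ℕ → Finset ℕ → ℝ≥0∞ := fun b o => ∫⁻ x, wt B pt o x ∂(A (part k L b)) with hQ
  have hQsum : ∀ b ∈ B, ∑ o ∈ B, Q b o = 1 := by
    intro b hb
    rw [hB, mem_powersetCard] at hb
    have := hA.prob _ (hpartsLE b hb.1 hb.2.le)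
    rw [hQ]
    simp only
    rw [← lintegral_finsetSum _ fun o _ => measurable_wt B pt o]
    simp only [sum_wt B pt hBne]
    simp
  have hQtop : ∀ b ∈ B, ∀ o ∈ B, Q b o ≠ ⊤ := by
    intro b hb o ho
    have h1 : Q b o ≤ 1 := by
      rw [← hQsum b hb]
      exact single_le_sum (f := Q b) (fun _ _ => bot_le) ho
    exact ne_top_of_le_ne_top ENNReal.one_ne_top h1
  have hQdp : ∀ b ∈ B, ∀ x ∈ b, ∀ y ∈ range k \ b, ∀ o,
      Q b o ≤ ENNReal.ofReal (Real.exp (2 * ε)) * Q (insert y (b.erase x)) o := by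
    intro b hb x hx y hy o
    rw [hQ]
    simp only
    have h1 := lintegral_mono' (hmeas b hb x hx y hy) (le_refl (wt B pt o))
    rwa [lintegral_smul_measure, smul_eq_mul] at h1
  have hswap : ∀ b ∈ B, ∀ x ∈ b, ∀ y ∈ range k \ b, insert y (b.erase x) ∈ B := by
    intro b hb x hx y hy
    rw [hB, mem_powersetCard] at hb ⊢
    rw [mem_sdiff] at hy
    have hye : y ∉ b.erase x := fun hh => hy.2 (mem_of_mem_erase hh)
    have hbpos : 0 < b.card := card_pos.2 ⟨x, hx⟩
    refine ⟨?_, ?_⟩
    · rw [insert_subset_iff]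
      exact ⟨hy.1, (erase_subset _ _).trans hb.1⟩
    · rw [card_insert_of_notMem hye, card_erase_of_mem hx, hb.2]
      omega
  -- apply the combinatorial estimate
  set P : Finset ℕ → Finset ℕ → ℝ := fun b o => if o ∈ B then (Q b o).toReal else 0 with hPdef
  obtain ⟨b, hb, hle⟩ := average (h := h) (J := J) (Real.exp_pos (2 * ε)) hJh hJ P
    (by
      intro b o
      rw [hPdef]
      simp only
      split_ifs
      · exact ENNReal.toReal_nonneg
      · exact le_rfl)
    (by
      intro b hb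
      rw [hPdef]
      simp only
      rw [← hk, ← hB] at hb ⊢
      rw [sum_congr rfl (fun o ho => if_pos ho), ← ENNReal.toReal_sum (hQtop b hb), hQsum b hb]
      rfl)
    (by
      intro b hb x hx y hy o
      rw [← hk, ← hB] at hb
      rw [← hk] at hy
      rw [hPdef]
      simp only
      split_ifs with ho
      · have h1 := hQdp b hb x hx y hy o
        have h2 : ENNReal.ofReal (Real.exp (2 * ε)) * Q (insert y (b.erase x)) o ≠ ⊤ :=
          ENNReal.mul_ne_top ENNReal.ofReal_ne_top (hQtop _ (hswap b hb x hx y hy) o ho)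
        have h3 := ENNReal.toReal_mono h2 h1
        rwa [ENNReal.toReal_mul, ENNReal.toReal_ofReal (Real.exp_pos _).le] at h3
      · simp)
  rw [← hk, ← hB] at hb hle
  refine ⟨part k L b, hparts b hb, ?_⟩
  have hle2 : ENNReal.ofReal ((J : ℝ) / 2) ≤ ∑ o ∈ B, Q b o * ((b \ o).card : ℝ≥0∞) := by
    have h1 : ∑ o ∈ B, P b o * ((b \ o).card : ℝ) =
        (∑ o ∈ B, Q b o * ((b \ o).card : ℝ≥0∞)).toReal := by
      rw [ENNReal.toReal_sum]
      · refine sum_congr rfl fun o ho => ?_
        rw [ENNReal.toReal_mul, ENNReal.toReal_natCast, hPdef]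
        simp only
        rw [if_pos ho]
      · intro o ho
        exact ENNReal.mul_ne_top (hQtop b hb o ho) (ENNReal.natCast_ne_top _)
    rw [h1] at hle
    refine (ENNReal.ofReal_le_ofReal hle).trans ?_
    exact ENNReal.ofReal_toReal_le
  refine hle2.trans ?_
  have hb' := hb
  rw [hB, mem_powersetCard] at hb'
  -- bound the error from below
  have h4 : ∑ o ∈ B, Q b o * (2 * ((b \ o).card : ℝ≥0∞)) ≤ 2 * err A (part k L b) := by
    have h5 : ∀ o ∈ B, Q b o * (2 * ((b \ o).card : ℝ≥0∞)) ≤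
        ∫⁻ x, wt B pt o x * (2 * l1dist x (pt b)) ∂(A (part k L b)) := by
      intro o ho
      rw [hB, mem_powersetCard] at ho
      calc Q b o * (2 * ((b \ o).card : ℝ≥0∞))
          ≤ Q b o * l1dist (pt o) (pt b) := by
            refine mul_le_mul_right ?_ _
            exact le_l1dist_part hb'.1 ho.1 (by rw [hb'.2, ho.2])
        _ = ∫⁻ x, wt B pt o x * l1dist (pt o) (pt b) ∂(A (part k L b)) := by
            rw [lintegral_mul_const _ (measurable_wt B pt o)]
        _ ≤ _ := lintegral_mono fun x => wt_mul_le B pt o b hb x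
    refine (sum_le_sum h5).trans ?_
    rw [← lintegral_finsetSum]
    · unfold err
      rw [← lintegral_const_mul _ (measurable_l1dist _)]
      refine lintegral_mono fun x => ?_
      simp only
      rw [← sum_mul, sum_wt B pt hBne, one_mul]
    · intro o _
      exact (measurable_wt B pt o).mul ((measurable_l1dist _).const_mul _)
  have h6 : ∑ o ∈ B, Q b o * (2 * ((b \ o).card : ℝ≥0∞)) =
      2 * ∑ o ∈ B, Q b o * ((b \ o).card : ℝ≥0∞) := by
    rw [mul_sum]
    refine sum_congr rfl fun o _ => ?_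
    ring
  rw [h6] at h4
  exact (ENNReal.mul_le_mul_iff_right (by norm_num) (by norm_num)).1 h4

/-- **Non-uniform lower bound for private anonymized histograms.** There is a constant `c > 0` such
that for every `ε ≥ 1` and all large `n`, every `ε`-differentially private algorithm on the
partitions of size at most `n` has expected `ℓ¹` error at least `c * √n / exp ε` on some partition
of size exactly `n`. -/
theorem result : ∃ c : ℝ, 0 < c ∧ ∀ ε : ℝ, 1 ≤ ε → ∃ n₀ : ℕ, ∀ n ≥ n₀,
    ∀ A : (ℕ →₀ ℕ) → Measure (ℕ → ℝ), IsDP ε n A →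
      ∃ p ∈ Parts n, ENNReal.ofReal (c * (√n / Real.exp ε)) ≤ err A p := by
  refine ⟨1 / 48, by norm_num, fun ε hε => ?_⟩
  refine ⟨⌈(24 * Real.exp ε) ^ 2⌉₊ + 64, fun n hn A hA => ?_⟩
  have hexp : 1 ≤ Real.exp ε := Real.one_le_exp (by linarith)
  have hexp2 : (2.7 : ℝ) ≤ Real.exp ε := by
    have h1 := Real.exp_one_gt_d9
    have h2 := Real.exp_le_exp.2 hε
    linarith
  have hn1 : (24 * Real.exp ε) ^ 2 + 64 ≤ (n : ℝ) := by
    have h1 := Nat.le_ceil ((24 * Real.exp ε) ^ 2)
    have h2 : ((⌈(24 * Real.exp ε) ^ 2⌉₊ + 64 : ℕ) : ℝ) ≤ n := by exact_mod_cast hn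
    push_cast at h2
    linarith
  set s : ℝ := √(n : ℝ) with hs
  have hs2 : s ^ 2 = n := Real.sq_sqrt (Nat.cast_nonneg _)
  have hs0 : 0 ≤ s := Real.sqrt_nonneg _
  have hs24 : 24 * Real.exp ε ≤ s := by
    apply Real.le_sqrt_of_sq_le
    linarith
  have hs8 : 8 ≤ s := by linarith
  set h : ℕ := ⌊s / 2⌋₊ with hh
  have hh1 : (h : ℝ) ≤ s / 2 := Nat.floor_le (by linarith)
  have hh2 : s / 2 < h + 1 := Nat.lt_floor_add_one _
  have hh3 : s / 4 ≤ h := by linarith
  have hnn : 2 * h ^ 2 + 2 * h ≤ n := by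
    have : (2 * (h : ℝ) ^ 2 + 2 * h) ≤ n := by
      rw [← hs2]
      have : (h : ℝ) ^ 2 ≤ (s / 2) ^ 2 := by
        apply pow_le_pow_left₀ (Nat.cast_nonneg _) hh1
      nlinarith
    exact_mod_cast this
  set t : ℝ := (h : ℝ) / (3 * Real.exp ε) with ht
  have ht2 : 2 ≤ t := by
    rw [ht, le_div_iff₀ (by positivity)]
    linarith
  set J : ℕ := ⌊t⌋₊ with hJ
  have hJ1 : (J : ℝ) ≤ t := Nat.floor_le (by linarith)
  have hJ2 : t < J + 1 := Nat.lt_floor_add_one _
  have hth : t * (3 * Real.exp ε) = h := by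
    rw [ht]
    field_simp
  have hth2 : t * 8.1 ≤ h := by
    rw [← hth]
    have : (8.1 : ℝ) ≤ 3 * Real.exp ε := by linarith
    exact mul_le_mul_of_nonneg_left this (by linarith)
  have hJh : J ≤ h := by
    have : (J : ℝ) ≤ h := by linarith
    exact_mod_cast this
  obtain ⟨p, hp, hle⟩ := exists_err (J := J) hA hnn hJh (by
    intro j hj
    have hj1 : ((j + 1 : ℕ) : ℝ) ≤ J := by exact_mod_cast hj
    have hj2 : ((h - j : ℕ) : ℝ) = (h : ℝ) - j := by
      rw [Nat.cast_sub (by omega)]
    rw [hj2]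
    push_cast at hj1 ⊢
    have h1 : 0 ≤ (j : ℝ) := Nat.cast_nonneg _
    have h2 : Real.exp (2 * ε) = Real.exp ε ^ 2 := by
      rw [← Real.exp_nat_mul]
      norm_num
    rw [h2]
    -- `2 (exp ε (j + 1))² ≤ (h - j)²`
    have h3 : Real.exp ε * ((j : ℝ) + 1) ≤ h / 3 := by
      calc Real.exp ε * ((j : ℝ) + 1) ≤ Real.exp ε * t :=
            mul_le_mul_of_nonneg_left (hj1.trans hJ1) (by linarith)
        _ = h / 3 := by rw [← hth]; ring
    have h4 : (2 / 3 : ℝ) * h ≤ h - j := by linarith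
    have h5 : 0 ≤ Real.exp ε * ((j : ℝ) + 1) := by positivity
    have h6 : (Real.exp ε * ((j : ℝ) + 1)) ^ 2 ≤ ((h : ℝ) / 3) ^ 2 := pow_le_pow_left₀ h5 h3 2
    have h7 : ((2 / 3 : ℝ) * h) ^ 2 ≤ ((h : ℝ) - j) ^ 2 := pow_le_pow_left₀ (by positivity) h4 2
    nlinarith)
  refine ⟨p, hp, le_trans (ENNReal.ofReal_le_ofReal ?_) hle⟩
  -- `(1 / 48) * (s / exp ε) ≤ J / 2`
  have h1 : t / 2 ≤ J := by linarith
  have h2 : s / Real.exp ε ≤ 12 * t := by
    rw [div_le_iff₀ (by positivity)]
    nlinarith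
  linarith

end Pool.Agent.Results.MP_c9d3d4_lc.NonUniformError
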